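import Pool.Agent.SGL.StmtsG

/-!
# Squad SGL (MP_41797f_co), row NXC: edges to `a`
-/

set_option autoImplicit false

namespace Pool.Agent.SGL.H29

open Pool.Agent.SGE Pool.Agent.SGP Pool.Agent.SGY Pool.Agent.SGD

/-- rotation and exchange -/
theorem oe1 (p q r : ℝ × ℝ) : o p q r = o q r p := by unfold o; ring
theorem oe2 (p q r : ℝ × ℝ) : o p q r = - o q p r := by unfold o; ring

/-- both ends of the first segment are on the same side of the second one -/
theorem same_neg' {p q r t : ℝ × ℝ} (hp : o r t p < 0) (hq : o r t q < 0) : ¬ Xs p q r t :=
  fun h => same_neg hp hq (xs_swap h)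

theorem nxc : NxcStmt := by
  intro V a c R s ρ f h hinj p r t hp hr ht hlast hcase
  by_cases hpr : p = r
  · subst hpr
    exact com (Or.inl rfl)
  by_cases hpt : p = t
  · subst hpt
    exact com (Or.inr (Or.inl rfl))
  -- signs relative to the segment `p a`
  have hneg : ∀ x ∈ R, s x < s p → o (f p) (f a) (f x) < 0 := by
    intro x hx hsx
    have h1 := h.ra x hx p hp hsx
    rw [oe2]
    linarith
  have hpos : ∀ x ∈ R, s p < s x → 0 < o (f p) (f a) (f x) := by
    intro x hx hsx
    have h1 := h.ra p hp x hx hsx
    rw [oe1]
    exact h1
  have hlt : ∀ x ∈ R, s x = s p → x ≠ p → ρ x < ρ p := by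
    intro x hx hsx hne
    exact lt_of_le_of_ne (hlast x hx hsx) fun he => hne (hinj x hx p hp he)
  -- the sign of `a` relative to an ascending edge
  have hra : s r < s t → o (f r) (f t) (f a) < 0 := by
    intro hst
    have h1 := h.ra r hr t ht hst
    have h2 : o (f r) (f t) (f a) = - o (f a) (f t) (f r) := by
      rw [oe1 (f r) (f t) (f a), oe2 (f t) (f a) (f r)]
    rw [h2]
    linarith
  -- the slices of `r` and `t`
  by_cases hrs : s r = s p
  · by_cases hts : s t = s p
    · -- (2) both in the slice of `p`
      intro hx
      have h1 := hlt r hr hrs (Ne.symm hpr)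
      have h2 := hlt t ht hts (Ne.symm hpt)
      exact sepx (h.xx r hr p hp h1) (h.xa r hr) (h.xx t ht p hp h2) (h.xa t ht) (xs_swap hx)
    · -- `s r = s p ≠ s t`, so `s r < s t`
      have hst : s r < s t := by
        rcases hcase with h1 | h1 | h1
        · exact absurd (h1.1.symm.trans hrs) hts
        · omega
        · rw [h1.1]; exact h1.2
      have h1 := hlt r hr hrs (Ne.symm hpr)
      have h2 := h.up r hr p hp t ht hrs h1 hst
      refine same_neg' ?_ (hra hst)
      have h3 : o (f r) (f t) (f p) = - o (f r) (f p) (f t) := by unfold o; ring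
      rw [h3]
      linarith
  · by_cases hts : s t = s p
    · -- (3)
      have hst : s r < s t := by
        rcases hcase with h1 | h1 | h1
        · exact absurd (h1.1.trans hts) hrs
        · omega
        · rw [h1.1]; exact h1.2
      have h1 := hlt t ht hts (Ne.symm hpt)
      have h2 := h.dn t ht p hp r hr hts h1 hst
      refine same_neg' ?_ (hra hst)
      have h3 : o (f r) (f t) (f p) = - o (f p) (f t) (f r) := by unfold o; ring
      rw [h3]
      linarith
    · rcases lt_or_gt_of_ne hrs with hr1 | hr1
      · rcases lt_or_gt_of_ne hts with ht1 | ht1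
        · exact same_neg (hneg r hr hr1) (hneg t ht ht1)
        · -- (5)
          have hst : s r < s t := hr1.trans ht1
          have hrc : r = c := by
            rcases hcase with h1 | h1 | h1
            · omega
            · omega
            · exact h1.1
          subst hrc
          have h2 := h.rc p hp t ht hpr ht1
          refine same_neg' ?_ (hra hst)
          have h3 : o (f r) (f t) (f p) = - o (f r) (f p) (f t) := by unfold o; ring
          rw [h3]
          linarith
      · have ht1 : s p < s t := by
          rcases hcase with h1 | h1 | h1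
          · rw [← h1.1]; exact hr1
          · omega
          · rw [h1.1] at hr1; exact hr1.trans h1.2
        exact same_pos (hpos r hr hr1) (hpos t ht ht1)

end Pool.Agent.SGL.H29
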